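import Pool.Agent.helper66.WD.Spec

/-! # Row DER of project WD: facts about the derivations and the lines -/

set_option autoImplicit false

universe u

namespace Pool.Agent.WD

open MvPolynomial Pool.Agent.helper92.VC

theorem DER_DD_isDer (n : ℕ) (K : Type u) [CommRing K] :
    IsDer (DD : MvPolynomial (Fin n ⊕ Fin n) K → MvPolynomial (Fin n ⊕ Fin n) K) := by
  constructor
  · intro a b
    unfold DD
    rw [← Finset.sum_add_distrib]
    refine Finset.sum_congr rfl fun l _ => ?_
    rw [map_add, mul_add]
  · intro a b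
    unfold DD
    rw [Finset.mul_sum, Finset.mul_sum, ← Finset.sum_add_distrib]
    refine Finset.sum_congr rfl fun l _ => ?_
    rw [Derivation.leibniz, smul_eq_mul, smul_eq_mul]
    ring

theorem DER_dz_isDer (n : ℕ) (K : Type u) [CommRing K] :
    IsDer (dz : PowerSeries (MvPolynomial (Fin n) K) → PowerSeries (MvPolynomial (Fin n) K)) := by
  constructor
  · intro a b
    unfold dz
    rw [map_add]
  · intro a b
    unfold dz
    rw [Derivation.leibniz, smul_eq_mul, smul_eq_mul]

theorem DER_DD_C (n : ℕ) (K : Type u) [CommRing K] (a : K) :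
    DD (C a : MvPolynomial (Fin n ⊕ Fin n) K) = 0 := by
  unfold DD
  refine Finset.sum_eq_zero fun l _ => ?_
  rw [pderiv_C, mul_zero]

theorem DER_DD_inl (n : ℕ) (K : Type u) [CommRing K] (l : Fin n) :
    DD (X (Sum.inl l) : MvPolynomial (Fin n ⊕ Fin n) K) = X (Sum.inr l) := by
  unfold DD
  rw [Finset.sum_eq_single l]
  · rw [pderiv_X_self, mul_one]
  · intro m _ hm
    rw [pderiv_X_of_ne, mul_zero]
    intro h
    exact hm (Sum.inl_injective h).symm
  · intro h
    exact absurd (Finset.mem_univ l) h

theorem DER_DD_inr (n : ℕ) (K : Type u) [CommRing K] (l : Fin n) :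
    DD (X (Sum.inr l) : MvPolynomial (Fin n ⊕ Fin n) K) = 0 := by
  unfold DD
  refine Finset.sum_eq_zero fun m _ => ?_
  rw [pderiv_X_of_ne, mul_zero]
  intro h
  exact Sum.inl_ne_inr h.symm

theorem DER_line2_C (n : ℕ) (K : Type u) [CommRing K] (α : Fin n → K) (a : K) :
    line2 α (C a) = PowerSeries.C (C a) := by
  unfold line2
  rw [aeval_C, PowerSeries.algebraMap_apply, MvPolynomial.algebraMap_eq]

theorem DER_line2_inl (n : ℕ) (K : Type u) [CommRing K] (α : Fin n → K) (l : Fin n) :
    line2 α (X (Sum.inl l)) =
      PowerSeries.C (C (α l)) + PowerSeries.X * PowerSeries.C (X l) := by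
  unfold line2
  rw [aeval_X]
  rfl

theorem DER_line2_inr (n : ℕ) (K : Type u) [CommRing K] (α : Fin n → K) (l : Fin n) :
    line2 α (X (Sum.inr l)) = PowerSeries.C (X l) := by
  unfold line2
  rw [aeval_X]
  rfl

theorem DER_dz_C (n : ℕ) (K : Type u) [CommRing K] (a : MvPolynomial (Fin n) K) :
    dz (PowerSeries.C a) = 0 := by
  unfold dz
  exact PowerSeries.derivative_C

theorem DER_dz_X (n : ℕ) (K : Type u) [CommRing K] :
    dz (PowerSeries.X : PowerSeries (MvPolynomial (Fin n) K)) = 1 := by
  unfold dz
  exact PowerSeries.derivative_X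

theorem DER_comm (n : ℕ) (K : Type u) [CommRing K] (α : Fin n → K)
    (q : MvPolynomial (Fin n ⊕ Fin n) K) : dz (line2 α q) = line2 α (DD q) := by
  have hD := DER_DD_isDer n K
  have hz := DER_dz_isDer n K
  induction q using MvPolynomial.induction_on with
  | C a => rw [DER_line2_C, DER_dz_C, DER_DD_C, map_zero]
  | add p q hp hq => rw [map_add, hz.add, hD.add, map_add, hp, hq]
  | mul_X p i hp =>
    have hX : dz (line2 α (X i)) = line2 α (DD (X i)) := by
      rcases i with l | l
      · rw [DER_line2_inl, hz.add, DER_dz_C, hz.mul, DER_dz_C, DER_dz_X, DER_DD_inl,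
          DER_line2_inr, mul_zero, zero_add, zero_add, mul_one]
      · rw [DER_line2_inr, DER_dz_C, DER_DD_inr, map_zero]
    rw [map_mul, hz.mul, hD.mul, map_add, map_mul, map_mul, hp, hX]

theorem DER_emb (n : ℕ) (K : Type u) [CommRing K] (α : Fin n → K)
    (p : MvPolynomial (Fin n) K) : line2 α (emb p) = line α p := by
  unfold line2 emb line
  rw [aeval_rename]
  rfl

theorem DER_eval2 (n : ℕ) (K : Type u) [CommRing K] (α β : Fin n → K)
    (q : MvPolynomial (Fin n ⊕ Fin n) K) :
    eval β (PowerSeries.coeff 0 (line2 α q)) = eval (Sum.elim α β) q := by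
  rw [PowerSeries.coeff_zero_eq_constantCoeff_apply]
  induction q using MvPolynomial.induction_on with
  | C a => rw [DER_line2_C, PowerSeries.constantCoeff_C, eval_C, eval_C]
  | add p q hp hq => rw [map_add, map_add, map_add, map_add, hp, hq]
  | mul_X p i hp =>
    have hX : eval β (PowerSeries.constantCoeff (line2 α (X i))) = eval (Sum.elim α β) (X i) := by
      rcases i with l | l
      · rw [DER_line2_inl, map_add, PowerSeries.constantCoeff_C, map_mul,
          PowerSeries.constantCoeff_X, zero_mul, add_zero, eval_C, eval_X]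
        rfl
      · rw [DER_line2_inr, PowerSeries.constantCoeff_C, eval_X, eval_X]
        rfl
    rw [map_mul, map_mul, map_mul, map_mul, hp, hX]

theorem DER_coeff0 (n : ℕ) (K : Type u) [CommRing K] (α : Fin n → K)
    (p : MvPolynomial (Fin n) K) : PowerSeries.coeff 0 (line α p) = C (eval α p) := by
  rw [PowerSeries.coeff_zero_eq_constantCoeff_apply]
  induction p using MvPolynomial.induction_on with
  | C a =>
    have h : line α (C a) = PowerSeries.C (C a) := by
      unfold line
      rw [aeval_C, PowerSeries.algebraMap_apply, MvPolynomial.algebraMap_eq]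
    rw [h, PowerSeries.constantCoeff_C, eval_C]
  | add p q hp hq => rw [map_add, map_add, map_add, map_add, hp, hq]
  | mul_X p i hp =>
    have hX : PowerSeries.constantCoeff (line α (X i)) = C (eval α (X i)) := by
      have h : line α (X i) =
          PowerSeries.C (C (α i)) + PowerSeries.X * PowerSeries.C (X i) := by
        unfold line
        rw [aeval_X]
      rw [h, map_add, PowerSeries.constantCoeff_C, map_mul,
          PowerSeries.constantCoeff_X, zero_mul, add_zero, eval_X]
    rw [map_mul, map_mul, map_mul, map_mul, hp, hX]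

theorem DER : DER_stmt.{u} := by
  intro n K _
  exact ⟨DER_DD_isDer n K, DER_dz_isDer n K, DER_DD_C n K, DER_comm n K, DER_emb n K,
    DER_eval2 n K, DER_coeff0 n K⟩

end Pool.Agent.WD
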