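import Pool.Agent.helper66.WD.Spec

/-! # Row FIW of project WD: the result -/

set_option autoImplicit false

universe u

namespace Pool.Agent.WD

open MvPolynomial Pool.Agent.helper92.VC

theorem FIW_one (hMAI : MAI_stmt.{u}) (hRTW : RTW_stmt.{u}) (k : Type u) [Field k] [CharZero k]
    (c n w : ℕ) (f : MvPolynomial (Fin n) k) (G : MvPolynomial (Fin n) (RatFunc k))
    (hG : IsSumPow c w G) (hs : SpecializesTo G f) :
    ComputedIn f (mbound c n w f.totalDegree) := by
  obtain ⟨F, hF, hFf⟩ := hRTW k n c w f G hG hs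
  have h := hMAI (PowerSeries k) (LaurentSeries k) k (PowerSeries.constantCoeff (R := k))
    (fun a => ⟨PowerSeries.C a, PowerSeries.constantCoeff_C a⟩)
    (fun x hx => PowerSeries.isUnit_iff_constantCoeff.2 (isUnit_iff_ne_zero.2 hx))
    n c w f.totalDegree F hF (by rw [hFf])
  rw [hFf] at h
  exact h

theorem FIW (hMAI : MAI_stmt.{u}) (hRTW : RTW_stmt.{u}) (hMBD : MBD_stmt)
    (hPBD : Pool.Agent.helper92.VC.PBD_stmt) (hVNV : Pool.Agent.helper92.VC.VNV_stmt.{u}) :
    FIW_stmt.{u} := by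
  intro k _ _ c
  obtain ⟨E, hE⟩ := hMBD c
  have key : ∀ (n w : ℕ) (f : MvPolynomial (Fin n) k) (G : MvPolynomial (Fin n) (RatFunc k)),
      IsSumPow c w G → SpecializesTo G f → complexity f ≤ (n + w + f.totalDegree + 2) ^ E := by
    intro n w f G hG hs
    exact le_trans (Nat.sInf_le (FIW_one hMAI hRTW k c n w f G hG hs)) (hE n w f.totalDegree)
  refine ⟨⟨E, key⟩, ?_⟩
  intro F w hF hw hG
  obtain ⟨hconst, hle, hadd, hmul, hpow⟩ := hPBD
  have hVP : F ∈ VP k := by
    refine ⟨hF, ?_⟩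
    refine hle _ (fun n => (F.v n + w n + (F.f n).totalDegree + 2) ^ E) ?_ ?_
    · intro n
      obtain ⟨G, hG1, hG2⟩ := hG n
      exact key (F.v n) (w n) (F.f n) G hG1 hG2
    · exact hpow _ E (hadd _ _ (hadd _ _ (hadd _ _ hF.1 hw) hF.2) (hconst 2))
  exact ⟨hVP, hVNV k hVP⟩

end Pool.Agent.WD
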